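import Pool.Agent.MP_f6b137_pr.H74.Spec

/-! Deterministic bound for the zeros near and beyond the right end point. -/

namespace Pool.Agent.MP_f6b137_pr.H6

open Polynomial Metric Set
open scoped Real

lemma maxmod {g : ℂ → ℂ} (hg : Differentiable ℂ g) {c : ℂ} {R M : ℝ} (hR : 0 < R)
    (h : ∀ z ∈ sphere c R, ‖g z‖ ≤ M) {z : ℂ} (hz : z ∈ closedBall c R) : ‖g z‖ ≤ M :=
  Complex.norm_le_of_forall_mem_frontier_norm_le (U := ball c R) isBounded_ball
    hg.diffContOnCl (by rwa [frontier_ball c hR.ne']) (by rwa [closure_ball c hR.ne'])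

lemma zeros {c : ℂ} {r R : ℝ} (hr : 0 ≤ r) (hR : r < R) (T : Finset ℂ) :
    ∀ (g : ℂ → ℂ) (M : ℝ), Differentiable ℂ g → (∀ z ∈ sphere c R, ‖g z‖ ≤ M) →
      (∀ a ∈ T, a ∈ closedBall c r ∧ g a = 0) → ‖g c‖ ≤ M * (r / (R - r)) ^ T.card := by
  classical
  induction T using Finset.induction_on with
  | empty =>
    intro g M hg h _
    simpa using maxmod hg (hr.trans_lt hR) h (mem_closedBall_self (hr.trans hR.le))
  | insert a T ha ih =>
    intro g M hg h h0
    obtain ⟨ha1, ha2⟩ := h0 a (Finset.mem_insert_self _ _)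
    have e : ∀ z, g z = (z - a) * dslope g a z := fun z => by
      have := sub_smul_dslope g a z
      rwa [ha2, sub_zero, smul_eq_mul, eq_comm] at this
    have hp : 0 < R - r := sub_pos.2 hR
    have h1 := ih (dslope g a) (M / (R - r))
      (differentiableOn_univ.1 ((Complex.differentiableOn_dslope Filter.univ_mem).2
        hg.differentiableOn))
      (fun z hz => by
        have h2 := h z hz
        rw [e z, norm_mul, ← dist_eq_norm] at h2
        have h3 := dist_triangle z a c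
        rw [mem_sphere] at hz
        rw [mem_closedBall] at ha1
        rw [le_div_iff₀' hp]
        exact (mul_le_mul_of_nonneg_right (by linarith) (norm_nonneg _)).trans h2)
      fun b hb => by
        obtain ⟨h2, h3⟩ := h0 b (Finset.mem_insert_of_mem hb)
        refine ⟨h2, ?_⟩
        rw [e b] at h3
        exact (mul_eq_zero.1 h3).resolve_left (sub_ne_zero.2 fun h4 => ha (h4 ▸ hb))
    rw [e c, norm_mul, Finset.card_insert_of_notMem ha, ← dist_eq_norm, dist_comm]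
    refine (mul_le_mul ha1 h1 (norm_nonneg _) hr).trans (le_of_eq ?_)
    ring

/-- the polynomial in the Joukowski variable -/
noncomputable def G (f : ℝ[X]) (n : ℕ) (u : ℂ) : ℂ :=
  ∑ k ∈ Finset.range (n + 1), (f.coeff k : ℂ) * ((u ^ 2 + 1) / 2) ^ k * u ^ (n - k)

lemma G_diff (f : ℝ[X]) (n : ℕ) : Differentiable ℂ (G f n) := by
  unfold G
  fun_prop

lemma G_eq (f : ℝ[X]) (n : ℕ) {u : ℂ} (hu : u ≠ 0) : G f n u =
    u ^ n * ∑ k ∈ Finset.range (n + 1), (f.coeff k : ℂ) * ((u + u⁻¹) / 2) ^ k := by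
  rw [G, Finset.mul_sum]
  refine Finset.sum_congr rfl fun k hk => ?_
  obtain ⟨j, rfl⟩ := Nat.exists_eq_add_of_le (Nat.lt_succ_iff.1 (Finset.mem_range.1 hk))
  rw [Nat.add_sub_cancel_left, show (u ^ 2 + 1) / 2 = u * ((u + u⁻¹) / 2) by field_simp, mul_pow]
  ring

lemma G_real {f : ℝ[X]} {n : ℕ} (hf : f.natDegree ≤ n) {u : ℂ} (hu : u ≠ 0) {x : ℝ}
    (hx : (u + u⁻¹) / 2 = x) : G f n u = u ^ n * (f.eval x : ℝ) := by
  rw [G_eq f n hu, hx, eval_eq_sum_range' (Nat.lt_succ_of_le hf)]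
  push_cast
  rfl

lemma G_in {f : ℝ[X]} {n : ℕ} {S : ℝ} (hf : f.natDegree ≤ n)
    (hS : ∀ x ∈ Icc (-1 : ℝ) 1, |f.eval x| ≤ S) {u : ℂ} (hu : ‖u‖ ≤ 1) : ‖G f n u‖ ≤ S := by
  refine maxmod (G_diff f n) (c := 0) one_pos (fun z hz => ?_) (by simpa using hu)
  have h1 : ‖z‖ = 1 := by simpa using hz
  have h0 : z ≠ 0 := fun h => by simp [h] at h1
  have h2 : (z + z⁻¹) / 2 = z.re := by
    rw [Complex.inv_eq_conj h1, Complex.add_conj]
    push_cast
    ring
  rw [G_real hf h0 h2, norm_mul, norm_pow, h1, one_pow, one_mul, Complex.norm_real]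
  exact hS _ (abs_le.1 (h1 ▸ Complex.abs_re_le_norm z))

lemma G_out {f : ℝ[X]} {n : ℕ} {S : ℝ} (hf : f.natDegree ≤ n)
    (hS : ∀ x ∈ Icc (-1 : ℝ) 1, |f.eval x| ≤ S) {u : ℂ} {t : ℝ} (ht : 1 ≤ t) (hu : ‖u‖ ≤ t) :
    ‖G f n u‖ ≤ t ^ (2 * n) * S := by
  have h0 : 0 ≤ S := (abs_nonneg _).trans (hS 0 (by simp))
  rcases le_total ‖u‖ 1 with h | h
  · exact (G_in hf hS h).trans (le_mul_of_one_le_left h0 (one_le_pow₀ ht))
  · have hu0 : u ≠ 0 := fun h1 => by norm_num [h1] at h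
    have e : G f n u = u ^ (2 * n) * G f n u⁻¹ := by
      rw [G_eq f n hu0, G_eq f n (inv_ne_zero hu0), inv_inv, add_comm u⁻¹ u, ← mul_assoc, two_mul,
        pow_add, mul_assoc (u ^ n), ← mul_pow, mul_inv_cancel₀ hu0, one_pow, mul_one]
    rw [e, norm_mul, norm_pow]
    have h2 := G_in hf hS (u := u⁻¹) (by rw [norm_inv]; exact inv_le_one_of_one_le₀ h)
    gcongr

lemma count {f : ℝ[X]} {n m : ℕ} (hf : f.natDegree ≤ n) {c r M : ℝ} (hc : 0 < c) (hr : 0 < r)
    (hM : ∀ z ∈ sphere (c : ℂ) (3 * r), ‖G f n z‖ ≤ M)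
    (hm : M < 2 ^ m * |c ^ n * f.eval ((c + c⁻¹) / 2)|) (B : Finset ℝ) (u : ℝ → ℂ)
    (hB : ∀ x ∈ B, f.eval x = 0 ∧ u x ≠ 0 ∧ (u x + (u x)⁻¹) / 2 = x ∧
      u x ∈ closedBall (c : ℂ) r) : B.card ≤ m := by
  classical
  have h1 := zeros hr.le (by linarith : r < 3 * r) (B.image u) _ M (G_diff f n) hM (by
    intro a ha
    obtain ⟨x, hx, rfl⟩ := Finset.mem_image.1 ha
    obtain ⟨h1, h2, h3, h4⟩ := hB x hx
    exact ⟨h4, by rw [G_real hf h2 h3, h1]; simp⟩)
  rw [Finset.card_image_of_injOn fun x hx y hy e => by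
    have h2 := (hB x hx).2.2.1
    rw [e, (hB y hy).2.2.1] at h2
    exact_mod_cast h2.symm, show r / (3 * r - r) = 1 / 2 by field_simp; norm_num,
    G_real hf (u := c) (by exact_mod_cast hc.ne') (x := (c + c⁻¹) / 2) (by push_cast; rfl),
    ← Complex.ofReal_pow, ← Complex.ofReal_mul, Complex.norm_real, Real.norm_eq_abs,
    one_div, inv_pow, ← div_eq_mul_inv, le_div_iff₀' (by positivity)] at h1
  have h2 := lt_of_mul_lt_mul_right (h1.trans_lt hm) (abs_nonneg _)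
  exact ((pow_lt_pow_iff_right₀ one_lt_two).1 h2).le

lemma place {N L : ℕ} (hN : 13 ≤ N) (hL : N ≤ 2 ^ L) {x : ℝ} (hx : Real.cos (π / N) ≤ x) :
    ∃ (u : ℂ) (j : ℕ), u ≠ 0 ∧ (u + u⁻¹) / 2 = x ∧ j ≤ L ∧
      (j = L → u ∈ closedBall ((1 : ℝ) : ℂ) (4 / N)) ∧
      (j < L → u ∈ closedBall ((1 - 3 / 4 / 2 ^ j : ℝ) : ℂ) (1 / 4 / 2 ^ j)) := by
  have hN' : (13 : ℝ) ≤ N := by exact_mod_cast hN
  rcases le_or_gt x 1 with h | h
  · have h1 : -1 ≤ x := (Real.neg_one_le_cos _).trans hx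
    have h2 : √(1 - x ^ 2) ^ 2 = 1 - x ^ 2 := Real.sq_sqrt (by nlinarith)
    have h3 : ‖(⟨x, √(1 - x ^ 2)⟩ : ℂ)‖ = 1 := by
      rw [← sq_eq_sq₀ (norm_nonneg _) zero_le_one, Complex.sq_norm, Complex.normSq_mk]
      nlinarith
    refine ⟨⟨x, √(1 - x ^ 2)⟩, L, fun h0 => by simp [h0] at h3, ?_, le_rfl, fun _ => ?_,
      fun h0 => absurd h0 (lt_irrefl _)⟩
    · rw [Complex.inv_eq_conj h3, Complex.add_conj]
      push_cast
      ring
    · rw [mem_closedBall, dist_eq_norm, ← sq_le_sq₀ (norm_nonneg _) (by positivity),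
        Complex.sq_norm, Complex.normSq_apply]
      have h4 := Real.one_sub_sq_div_two_le_cos (x := π / N)
      have h5 : (π / N) ^ 2 ≤ (4 / N) ^ 2 := by
        gcongr
        exact Real.pi_le_four
      simp only [Complex.sub_re, Complex.sub_im, Complex.ofReal_re, Complex.ofReal_im]
      nlinarith
  · have h2 : √(x ^ 2 - 1) ^ 2 = x ^ 2 - 1 := Real.sq_sqrt (by nlinarith)
    have h3 := Real.sqrt_nonneg (x ^ 2 - 1)
    obtain ⟨u, hu⟩ : ∃ u : ℝ, u = x - √(x ^ 2 - 1) := ⟨_, rfl⟩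
    have h4 : u * (x + √(x ^ 2 - 1)) = 1 := by rw [hu]; nlinarith
    have h5 : 0 < u := by
      by_contra h0
      nlinarith
    have h6 : u < 1 := by nlinarith
    have h7 : ((u : ℂ) + (u : ℂ)⁻¹) / 2 = x := by
      have : (u + u⁻¹) / 2 = x := by
        rw [← eq_inv_of_mul_eq_one_right h4, hu]
        ring
      exact_mod_cast this
    have h8 : (u : ℂ) ≠ 0 := by exact_mod_cast h5.ne'
    rcases le_or_gt (1 - u) (4 / N) with h9 | h9
    · refine ⟨u, L, h8, h7, le_rfl, fun _ => ?_, fun h0 => absurd h0 (lt_irrefl _)⟩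
      rw [mem_closedBall, Complex.isometry_ofReal.dist_eq, Real.dist_eq, abs_le]
      constructor <;> linarith
    · obtain ⟨j, hj1, hj2⟩ := exists_nat_pow_near_of_lt_one (x := 1 - u) (y := 1 / 2)
        (by linarith) (by linarith) (by norm_num) (by norm_num)
      have hj : j < L := by
        have a1 : (N : ℝ) ≤ 2 ^ L := by exact_mod_cast hL
        have a2 : (1 / 2 : ℝ) ^ L < 4 / N := by
          rw [one_div_pow, div_lt_div_iff₀ (by positivity) (by positivity)]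
          linarith
        exact (pow_lt_pow_iff_right_of_lt_one₀ (by norm_num) (by norm_num)).1
          (a2.trans (h9.trans_le hj2))
      refine ⟨u, j, h8, h7, hj.le, fun h0 => absurd h0 hj.ne, fun _ => ?_⟩
      rw [mem_closedBall, Complex.isometry_ofReal.dist_eq, Real.dist_eq, abs_le]
      rw [pow_succ, one_div_pow] at hj1
      rw [one_div_pow] at hj2
      have a3 : (3 : ℝ) / 4 / 2 ^ j = 3 / 4 * (1 / 2 ^ j) := by ring
      have a4 : (1 : ℝ) / 4 / 2 ^ j = 1 / 4 * (1 / 2 ^ j) := by ring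
      constructor <;> linarith

theorem rowOUT0 : H74.RowOUT0 := by
  classical
  intro N n L m f S hN hn hf hL hS hc
  have hN' : (13 : ℝ) ≤ N := by exact_mod_cast hN
  have h0 : 0 ≤ S := (abs_nonneg _).trans (hS 0 (by simp))
  have hp : ∀ x : ℝ, ∃ (u : ℂ) (j : ℕ), Real.cos (π / N) ≤ x → u ≠ 0 ∧ (u + u⁻¹) / 2 = x ∧ j ≤ L ∧
      (j = L → u ∈ closedBall ((1 : ℝ) : ℂ) (4 / N)) ∧
      (j < L → u ∈ closedBall ((1 - 3 / 4 / 2 ^ j : ℝ) : ℂ) (1 / 4 / 2 ^ j)) := fun x => by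
    by_cases hx : Real.cos (π / N) ≤ x
    · obtain ⟨u, j, h⟩ := place hN hL hx
      exact ⟨u, j, fun _ => h⟩
    · exact ⟨0, 0, fun h => absurd h hx⟩
  choose u j hu using hp
  have key := Finset.card_le_mul_card_image_of_maps_to
    (s := f.roots.toFinset.filter fun x => Real.cos (π / N) ≤ x) (t := Finset.range (L + 1))
    (f := j) (fun x hx => Finset.mem_range.2 (Nat.lt_succ_of_le
      (hu x (Finset.mem_filter.1 hx).2).2.2.1)) m ?_
  · rwa [Finset.card_range, mul_comm] at key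
  intro i hi
  have hB : ∀ x ∈ (f.roots.toFinset.filter fun x => Real.cos (π / N) ≤ x).filter
      fun x => j x = i, f.eval x = 0 ∧ Real.cos (π / N) ≤ x ∧ j x = i := fun x hx => by
    simp only [Finset.mem_filter, Multiset.mem_toFinset, mem_roots'] at hx
    exact ⟨hx.1.1.2, hx.1.2, hx.2⟩
  rcases (Nat.lt_succ_iff.1 (Finset.mem_range.1 hi)).eq_or_lt with h | h
  · refine count hf (c := 1) (r := 4 / N) one_pos (by positivity) (fun z hz => ?_)
      (hc 1 (Or.inl rfl)) _ u fun x hx => ?_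
    · have h1 : ‖z‖ ≤ 1 + 12 / N := by
        have h2 := norm_le_norm_add_norm_sub' z 1
        rw [mem_sphere_iff_norm, Complex.ofReal_one] at hz
        rw [hz, norm_one] at h2
        exact h2.trans_eq (by ring)
      have h3 : (0 : ℝ) ≤ 12 / N := by positivity
      refine (G_out hf hS (by linarith) h1).trans (mul_le_mul_of_nonneg_right ?_ h0)
      have h4 : (n : ℝ) ≤ 2 * N := by exact_mod_cast hn
      calc _ ≤ Real.exp (12 / N) ^ (2 * n) := by
            gcongr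
            linarith [Real.add_one_le_exp (12 / N : ℝ)]
        _ ≤ _ := by
            rw [← Real.exp_nat_mul]
            refine Real.exp_le_exp.2 ?_
            rw [← mul_div_assoc, div_le_iff₀ (by linarith)]
            push_cast
            linarith
    · obtain ⟨h1, h2, h3⟩ := hB x hx
      obtain ⟨a1, a2, -, a4, -⟩ := hu x h2
      exact ⟨h1, a1, a2, a4 (h3.trans h)⟩
  · have h2 : (1 : ℝ) ≤ 2 ^ i := one_le_pow₀ one_le_two
    have h3 : (3 : ℝ) / 4 / 2 ^ i ≤ 3 / 4 := div_le_self (by norm_num) h2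
    refine count hf (c := 1 - 3 / 4 / 2 ^ i) (r := 1 / 4 / 2 ^ i) (by linarith) (by positivity)
      (fun z hz => ?_) (hc _ (Or.inr ⟨i, h, rfl⟩)) _ u fun x hx => ?_
    · have h1 : ‖z‖ ≤ 1 := by
        have h4 := norm_le_norm_add_norm_sub' z ((1 - 3 / 4 / 2 ^ i : ℝ) : ℂ)
        rw [mem_sphere_iff_norm] at hz
        rw [hz, Complex.norm_real, Real.norm_of_nonneg (by linarith)] at h4
        exact h4.trans_eq (by ring)
      exact (G_in hf hS h1).trans (le_mul_of_one_le_left h0 (Real.one_le_exp (by norm_num)))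
    · obtain ⟨h1, h2, h3⟩ := hB x hx
      obtain ⟨a1, a2, -, -, a4⟩ := hu x h2
      exact ⟨h1, a1, a2, h3 ▸ a4 (h3 ▸ h)⟩

end Pool.Agent.MP_f6b137_pr.H6
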